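import Mathlib
import Pool.Agent.Helper20.FF.Defs

/-!
# The quasi-periodic case (row P9 of the classification of extremal non-spanning sets)
-/

set_option autoImplicit false

open scoped Pointwise

namespace Pool.Agent.Helper61.FF

open Pool.Agent.Helper82.Kneser Pool.Agent.Helper20.Span Pool.Agent.Helper20.FF

section general

variable {G : Type*} [AddCommGroup G] [DecidableEq G] [Fintype G]

/-- the data attached to a subgroup `K` with `|A + K| < |A| + |K|` -/
theorem quasi_data {A : Finset G} {m : ℕ} (hm : 1 ≤ m) (hne : A.Nonempty)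
    (hA : ns A (m + 1) ≠ Finset.univ)
    (hper : (stab (ns A (m + 1))).card ≤ 1)
    (hext : ∀ B : Finset G, A.card < B.card → ns B (m + 1) = Finset.univ)
    {K : Finset G} (hK : IsSub K) (hK2 : 2 ≤ K.card)
    (hlt : (A + K).card < A.card + K.card) :
    ∃ a₀ ∈ A, ns ((tr A (-a₀)).filter (fun y => y ∈ K)) (m + 1) ≠ K ∧
      (0 : G) ∉ ((tr A (-a₀)).filter (fun y => y ∉ K) + K) + ns (tr A (-a₀) + K) m := by
  classical
  have hKne : K.Nonempty := ⟨0, hK.zero⟩
  have hsub : A ⊆ A + K := subset_add_sub hK A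
  -- `A` is not periodic
  have hAK : A.card < (A + K).card := by
    rcases (Finset.card_le_card hsub).lt_or_eq with h | h
    · exact h
    · exfalso
      have h1 : A = A + K := Finset.eq_of_subset_of_card_le hsub h.ge
      have h2 : K ⊆ stab (ns A (m + 1)) := by
        intro k hk
        rw [mem_stab (ns_nonempty hne _)]
        intro y hy
        rw [ns_succ] at hy ⊢
        obtain ⟨u, hu, v, hv, rfl⟩ := Finset.mem_add.1 hy
        rw [add_left_comm]
        apply Finset.add_mem_add hu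
        rw [h1, add_comm k v]
        exact Finset.add_mem_add hv hk
      have := Finset.card_le_card h2
      omega
  have hfull := hext (A + K) hAK
  obtain ⟨x, hx⟩ : ∃ x, x ∉ ns A (m + 1) := by
    by_contra hcon
    push Not at hcon
    exact hA (Finset.eq_univ_iff_forall.2 hcon)
  -- every representation of `x + K` lies in one coset with a small slice
  have hrep : ∀ b : Fin (m + 1) → G, (∀ i, b i ∈ A) → x - ∑ i, b i ∈ K →
      ∀ i j, i ≠ j → (slice A K (b i)).card + (slice A K (b j)).card ≤ K.card := by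
    intro b hb hbx i j hij
    by_contra hcon
    push Not at hcon
    set κ := x - ∑ i, b i with hκ
    have h1 : ∃ u ∈ slice A K (b i), κ - u ∈ slice A K (b j) := by
      by_contra h2
      push Not at h2
      have h3 : Disjoint (slice A K (b i)) ((slice A K (b j)).image (fun v => κ - v)) := by
        rw [Finset.disjoint_left]
        intro u hu hu'
        rw [Finset.mem_image] at hu'
        obtain ⟨v, hv, rfl⟩ := hu'
        apply h2 _ hu
        simpa using hv
      have h4 : slice A K (b i) ∪ (slice A K (b j)).image (fun v => κ - v) ⊆ K := by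
        apply Finset.union_subset (Finset.filter_subset _ _)
        intro u hu
        rw [Finset.mem_image] at hu
        obtain ⟨v, hv, rfl⟩ := hu
        exact hK.sub hbx (Finset.mem_filter.1 hv).1
      have h5 := Finset.card_le_card h4
      rw [Finset.card_union_of_disjoint h3,
        Finset.card_image_of_injective _ (sub_right_injective)] at h5
      omega
    obtain ⟨u, hu, hv⟩ := h1
    apply hx
    rw [mem_ns_iff]
    refine ⟨fun l => b l + (if l = i then u else 0) + (if l = j then κ - u else 0), ?_, ?_⟩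
    · intro l
      show b l + (if l = i then u else 0) + (if l = j then κ - u else 0) ∈ A
      by_cases hl : l = i
      · subst hl
        rw [if_pos rfl, if_neg hij, add_zero]
        exact (Finset.mem_filter.1 hu).2
      · by_cases hl' : l = j
        · subst hl'
          rw [if_neg hl, if_pos rfl, add_zero]
          exact (Finset.mem_filter.1 hv).2
        · rw [if_neg hl, if_neg hl', add_zero, add_zero]
          exact hb l
    · rw [Finset.sum_add_distrib, Finset.sum_add_distrib, Finset.sum_ite_eq' Finset.univ i,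
        Finset.sum_ite_eq' Finset.univ j]
      simp only [Finset.mem_univ, if_true]
      rw [hκ]; abel
  have hcos : ∀ b : Fin (m + 1) → G, (∀ i, b i ∈ A) → x - ∑ i, b i ∈ K →
      ∀ i j, b i - b j ∈ K := by
    intro b hb hbx i j
    by_contra hcon
    have hij : i ≠ j := by
      rintro rfl
      apply hcon
      rw [sub_self]
      exact hK.zero
    have h1 := holes hK (hb i) (hb j) hcon
    have h2 := hrep b hb hbx i j hij
    omega
  have hslice : ∀ b : Fin (m + 1) → G, (∀ i, b i ∈ A) → x - ∑ i, b i ∈ K →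
      ∀ i, 2 * (slice A K (b i)).card ≤ K.card := by
    intro b hb hbx i
    obtain ⟨j, hj⟩ : ∃ j : Fin (m + 1), j ≠ i := by
      by_cases hi : i = 0
      · exact ⟨⟨1, by omega⟩, by rw [hi]; intro h; rw [Fin.ext_iff] at h; simp at h⟩
      · exact ⟨0, Ne.symm hi⟩
    have h1 := hrep b hb hbx i j (Ne.symm hj)
    have h2 := slice_card_eq (A := A) hK (hcos b hb hbx i j)
    omega
  -- a representation
  obtain ⟨a, ha, hax⟩ : ∃ a : Fin (m + 1) → G, (∀ i, a i ∈ A) ∧ x - ∑ i, a i ∈ K := by
    have h1 : x ∈ ns (A + K) (m + 1) := by rw [hfull]; exact Finset.mem_univ _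
    rw [mem_ns_iff] at h1
    obtain ⟨f, hf, rfl⟩ := h1
    have h2 : ∀ i, ∃ a ∈ A, ∃ k ∈ K, a + k = f i := fun i => Finset.mem_add.1 (hf i)
    choose a ha k hk hak using h2
    refine ⟨a, ha, ?_⟩
    rw [← Finset.sum_sub_distrib]
    apply sub_sum_mem hK
    intro i _
    rw [← hak i]
    simpa using hk i
  set a₀ := a 0 with ha₀
  have hxa : x - (m + 1) • a₀ ∈ K := by
    have h1 : ∑ i, (a i - a₀) ∈ K := sub_sum_mem hK _ _ (fun i _ => hcos a ha hax i 0)
    have h2 := hK.add hax h1
    rw [Finset.sum_sub_distrib, Finset.sum_const, Finset.card_univ, Fintype.card_fin] at h2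
    rwa [show x - ∑ i, a i + (∑ i, a i - (m + 1) • a₀) = x - (m + 1) • a₀ by abel] at h2
  have huniq : ∀ b : Fin (m + 1) → G, (∀ i, b i ∈ A) → x - ∑ i, b i ∈ K →
      ∀ i, b i - a₀ ∈ K := by
    intro b hb hbx i
    by_contra hcon
    have h1 := holes hK (hb i) (ha 0) hcon
    have h2 := hslice b hb hbx i
    have h3 := hslice a ha hax 0
    rw [← ha₀] at h1 h3
    omega
  -- translate
  set A₁ := tr A (-a₀) with hA₁
  have hA₁c : A₁.card = A.card := card_tr _ _
  have h0A₁ : (0 : G) ∈ A₁ := by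
    rw [hA₁, mem_tr]
    simpa using ha 0
  set B₁ := A₁.filter (fun y => y ∉ K) with hB₁
  set A₀ := A₁.filter (fun y => y ∈ K) with hA₀
  have hcard : A₀.card + B₁.card = A.card := by
    rw [hA₀, hB₁, ← hA₁c]
    exact Finset.card_filter_add_card_filter_not (s := A₁) (fun y => y ∈ K)
  have hA₀K : A₀ ⊆ K := fun y hy => (Finset.mem_filter.1 hy).2
  have hA₀ne : ns A₀ (m + 1) ≠ K := by
    intro hcon
    have h1 : x - (m + 1) • a₀ ∈ ns A₀ (m + 1) := by rw [hcon]; exact hxa
    rw [mem_ns_iff] at h1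
    obtain ⟨f, hf, hfx⟩ := h1
    apply hx
    rw [mem_ns_iff]
    refine ⟨fun i => f i + a₀, ?_, ?_⟩
    · intro i
      have := (Finset.mem_filter.1 (hf i)).1
      rw [hA₁, mem_tr] at this
      rwa [show f i - -a₀ = f i + a₀ by abel] at this
    · rw [Finset.sum_add_distrib, hfx, Finset.sum_const, Finset.card_univ, Fintype.card_fin]
      abel
  refine ⟨a₀, ha 0, hA₀ne, ?_⟩
  set X := B₁ + K with hX
  set Y := A₁ + K with hY
  set W := X + ns Y m with hW
  have h0W : (0 : G) ∉ W := by
    intro hcon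
    obtain ⟨u, hu, v, hv, huv⟩ := Finset.mem_add.1 hcon
    obtain ⟨b₁, hb₁, k, hk1, rfl⟩ := Finset.mem_add.1 hu
    rw [mem_ns_iff] at hv
    obtain ⟨f, hf, rfl⟩ := hv
    have h2 : ∀ i, ∃ a ∈ A₁, ∃ k ∈ K, a + k = f i := fun i => Finset.mem_add.1 (hf i)
    choose c hc l hl hcl using h2
    rw [hB₁, Finset.mem_filter, hA₁, mem_tr] at hb₁
    have hb₂ : b₁ + a₀ ∈ A := by
      have := hb₁.1
      rwa [show b₁ - -a₀ = b₁ + a₀ by abel] at this
    have hc₂ : ∀ i, c i + a₀ ∈ A := by
      intro i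
      have := hc i
      rw [hA₁, mem_tr] at this
      rwa [show c i - -a₀ = c i + a₀ by abel] at this
    have h3 := huniq (Fin.cons (b₁ + a₀) (fun i => c i + a₀)) (by
      intro i
      refine Fin.cases ?_ ?_ i
      · simpa using hb₂
      · intro i; simpa using hc₂ i) (by
      rw [Fin.sum_univ_succ]
      simp only [Fin.cons_zero, Fin.cons_succ]
      rw [Finset.sum_add_distrib, Finset.sum_const, Finset.card_univ, Fintype.card_fin]
      have h4 : ∑ i, f i = ∑ i, c i + ∑ i, l i := by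
        rw [← Finset.sum_add_distrib]
        exact Finset.sum_congr rfl fun i _ => (hcl i).symm
      have h5 : ∑ i, l i ∈ K := sub_sum_mem hK _ _ (fun i _ => hl i)
      have h6 : ∑ i, c i = - (b₁ + k) - ∑ i, l i := by
        rw [h4] at huv
        have : ∑ i, c i = (b₁ + k + (∑ i, c i + ∑ i, l i)) - (b₁ + k) - ∑ i, l i := by abel
        rw [this, huv]; abel
      rw [h6, show x - (b₁ + a₀ + (-(b₁ + k) - ∑ i, l i + m • a₀))
        = (x - (m + 1) • a₀) + (k + ∑ i, l i) by rw [succ_nsmul]; abel]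
      exact hK.add hxa (hK.add hk1 h5)) 0
    simp only [Fin.cons_zero] at h3
    apply hb₁.2
    rwa [show b₁ + a₀ - a₀ = b₁ by abel] at h3
  exact h0W

omit [Fintype G] in
lemma sub_stab_of_add {K X T : Finset G} (hK : IsSub K) (hne : ((X + K) + T).Nonempty) : K ⊆ stab ((X + K) + T) := by
  intro k hk1
  rw [mem_stab hne]
  intro w hw
  obtain ⟨u, hu, v, hv, rfl⟩ := Finset.mem_add.1 hw
  obtain ⟨b, hb, k', hk', rfl⟩ := Finset.mem_add.1 hu
  rw [show k + (b + k' + v) = (b + (k + k')) + v by abel]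
  exact Finset.add_mem_add (Finset.add_mem_add hb (hK.add hk1 hk')) hv

/-- the main inequality for the periodic part -/
lemma W_data {K A₁ B₁ : Finset G} {p : ℕ} (hK : IsSub K) (h0A₁ : (0 : G) ∈ A₁) (hs : B₁ ⊆ A₁)
    (hBne : B₁.Nonempty) (h0W : (0 : G) ∉ (B₁ + K) + ns (A₁ + K) p) :
    K ⊆ stab ((B₁ + K) + ns (A₁ + K) p) ∧
    (p + 1) * (B₁ + K + stab ((B₁ + K) + ns (A₁ + K) p)).card
      + (stab ((B₁ + K) + ns (A₁ + K) p)).card ≤ Fintype.card G ∧
    (B₁ + K + stab ((B₁ + K) + ns (A₁ + K) p)).card + (stab ((B₁ + K) + ns (A₁ + K) p)).card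
      ≤ (A₁ + K + stab ((B₁ + K) + ns (A₁ + K) p)).card ∧
    ((B₁ + K) + ns (A₁ + K) p).card + (stab ((B₁ + K) + ns (A₁ + K) p)).card
      ≤ Fintype.card G := by
  classical
  have hKne : K.Nonempty := ⟨0, hK.zero⟩
  set X := B₁ + K with hX
  set Y := A₁ + K with hY
  have hXne : X.Nonempty := hBne.add hKne
  have h0Y : (0 : G) ∈ Y := Finset.mem_add.2 ⟨0, h0A₁, 0, hK.zero, by simp⟩
  have hYne : Y.Nonempty := ⟨0, h0Y⟩
  have hWne : (X + ns Y p).Nonempty := hXne.add (ns_nonempty hYne p)
  have hk := kneser_iter hXne hYne p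
  have hKS' := sub_stab_of_add (T := ns Y p) hK (by rw [← hX]; exact hWne)
  rw [← hX] at hKS'
  set W := X + ns Y p with hW
  set S := stab W with hS
  have hSs : IsSub S := isSub_stab hWne
  have hSW : Disjoint S W := by
    rw [Finset.disjoint_left]
    intro s hs hsW
    apply h0W
    have := add_mem_of_mem_stab (neg_mem_stab hs) hsW
    simpa using this
  have hXW : X + S ⊆ W := by
    intro z hz
    obtain ⟨u, hu, s, hs, rfl⟩ := Finset.mem_add.1 hz
    rw [add_comm]
    apply add_mem_of_mem_stab hs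
    have h0 : (0 : G) ∈ ns Y p := by
      rw [mem_ns_iff]
      exact ⟨fun _ => 0, fun _ => h0Y, by simp⟩
    exact Finset.mem_add.2 ⟨u, hu, 0, h0, by simp⟩
  have hYS : (X + S) ∪ S ⊆ Y + S := by
    apply Finset.union_subset
    · apply Finset.add_subset_add_right
      rw [hX, hY]
      exact Finset.add_subset_add_right hs
    · intro s hs
      exact Finset.mem_add.2 ⟨0, h0Y, s, hs, by simp⟩
  have hdis : Disjoint (X + S) S := (hSW.mono_right hXW).symm
  have h1 := Finset.card_le_card hYS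
  rw [Finset.card_union_of_disjoint hdis] at h1
  have h2 : W.card + S.card ≤ Fintype.card G := by
    rw [← Finset.card_union_of_disjoint hSW.symm]
    exact Finset.card_le_univ _
  refine ⟨hKS', ?_, h1, h2⟩
  have h5 : p * ((X + S).card + S.card) ≤ p * (Y + S).card := Nat.mul_le_mul_left _ h1
  have e1 : p * ((X + S).card + S.card) = p * (X + S).card + p * S.card := by ring
  have e2 : (p + 1) * (X + S).card = p * (X + S).card + (X + S).card := by ring
  omega

/-- the bound for the periodic part -/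
lemma B_bound {K A₁ B₁ : Finset G} {p : ℕ} (hK : IsSub K) (h0A₁ : (0 : G) ∈ A₁) (hs : B₁ ⊆ A₁)
    (h0W : (0 : G) ∉ (B₁ + K) + ns (A₁ + K) p) :
    (p + 1) * B₁.card + K.card ≤ Fintype.card G := by
  rcases Finset.eq_empty_or_nonempty B₁ with h0 | hBne
  · rw [h0, Finset.card_empty, mul_zero, zero_add]
    exact Finset.card_le_univ _
  · obtain ⟨h1, h2, -, -⟩ := W_data hK h0A₁ hs hBne h0W
    have h3 := Finset.card_le_card h1
    have h4 : B₁.card ≤ (B₁ + K + stab ((B₁ + K) + ns (A₁ + K) p)).card := by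
      apply Finset.card_le_card
      intro b hb
      exact Finset.mem_add.2 ⟨b, Finset.mem_add.2 ⟨b, hb, 0, hK.zero, by simp⟩, 0,
        zero_mem_stab ((hBne.add ⟨0, hK.zero⟩).add
          (ns_nonempty (A := A₁ + K) ⟨0, Finset.mem_add.2 ⟨0, h0A₁, 0, hK.zero, by simp⟩⟩ p)),
        by simp⟩
    have h5 : (p + 1) * B₁.card ≤ (p + 1) * _ := Nat.mul_le_mul_left _ h4
    omega

/-- the case of equality -/
lemma B_eq {K A₁ B₁ : Finset G} {p : ℕ} (hp : 1 ≤ p) (hK : IsSub K) (h0A₁ : (0 : G) ∈ A₁)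
    (hs : B₁ ⊆ A₁) (hBne : B₁.Nonempty) (h0W : (0 : G) ∉ (B₁ + K) + ns (A₁ + K) p)
    (heq : (p + 1) * B₁.card + K.card = Fintype.card G) :
    B₁ + K = B₁ ∧ ((B₁ + K) + (A₁ + K)).card ≤ 2 * B₁.card := by
  classical
  obtain ⟨h1, h2, h3, h4⟩ := W_data hK h0A₁ hs hBne h0W
  have hXne : (B₁ + K).Nonempty := hBne.add ⟨0, hK.zero⟩
  have hYne : (A₁ + K).Nonempty := ⟨0, Finset.mem_add.2 ⟨0, h0A₁, 0, hK.zero, by simp⟩⟩
  have hWne : ((B₁ + K) + ns (A₁ + K) p).Nonempty := hXne.add (ns_nonempty hYne p)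
  have h5 : (B₁ + K) ⊆ (B₁ + K + stab ((B₁ + K) + ns (A₁ + K) p)) := by
    intro b hb
    exact Finset.mem_add.2 ⟨b, hb, 0, zero_mem_stab hWne, by simp⟩
  have h6 : B₁ ⊆ B₁ + K := subset_add_sub hK B₁
  have h7 := Finset.card_le_card h1
  have h8 := Finset.card_le_card h5
  have h9 := Finset.card_le_card h6
  have h10 : (p + 1) * B₁.card ≤ (p + 1) * (B₁ + K).card := Nat.mul_le_mul_left _ h9
  have h11 : (p + 1) * (B₁ + K).card
    ≤ (p + 1) * (B₁ + K + stab ((B₁ + K) + ns (A₁ + K) p)).card := Nat.mul_le_mul_left _ h8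
  have hSK : K = stab ((B₁ + K) + ns (A₁ + K) p) :=
    Finset.eq_of_subset_of_card_le h1 (by omega)
  have hBc : (p + 1) * (B₁ + K).card ≤ (p + 1) * B₁.card := by omega
  have hBK : B₁ + K = B₁ :=
    (Finset.eq_of_subset_of_card_le h6 (Nat.le_of_mul_le_mul_left hBc (by omega))).symm
  refine ⟨hBK, ?_⟩
  obtain ⟨r, rfl⟩ : ∃ r, p = r + 1 := ⟨p - 1, by omega⟩
  have hWeq : (B₁ + K) + ns (A₁ + K) (r + 1) = ((B₁ + K) + (A₁ + K)) + ns (A₁ + K) r := by
    rw [ns_succ, add_comm (ns (A₁ + K) r), ← add_assoc]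
  have hk := kneser_iter (X := (B₁ + K) + (A₁ + K)) (Y := A₁ + K) (hXne.add hYne) hYne r
  rw [← hWeq, ← hSK] at hk
  have hXY : (B₁ + K) + (A₁ + K) + K = (B₁ + K) + (A₁ + K) := by
    rw [add_assoc, add_assoc A₁ K K, sub_add_self hK]
  have hYK : A₁ + K + K = A₁ + K := by rw [add_assoc, sub_add_self hK]
  have hXK : B₁ + K + K = B₁ + K := by rw [add_assoc, sub_add_self hK]
  rw [hXY, hYK] at hk
  rw [← hSK, hYK, hXK, hBK] at h3
  rw [← hSK] at h4
  have h12 : r * (B₁.card + K.card) ≤ r * (A₁ + K).card := Nat.mul_le_mul_left _ h3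
  have e1 : r * (B₁.card + K.card) = r * B₁.card + r * K.card := by ring
  have e2 : (r + 1 + 1) * B₁.card = r * B₁.card + 2 * B₁.card := by ring
  omega

end general

section quotient

/-- the structure of the image in the quotient -/
lemma quot_ap {m p q : ℕ} [NeZero m] (hp : 2 ≤ p) (hm : m = (p + 1) * q + 1) (hq : 1 ≤ q)
    {C : Finset (ZMod m)} (hC : C.card = q) (h0 : (0 : ZMod m) ∉ C)
    (hNQ : ∀ P : Finset (ZMod m), IsSub P → 2 ≤ P.card → P.card < m →
      (insert 0 C).card + P.card ≤ (insert 0 C + P).card)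
    (hsum : (C + insert 0 C).card ≤ 2 * q) (hno : (0 : ZMod m) ∉ C + insert 0 C) :
    ∃ δ : ZMod m, IsUnit δ ∧ ∀ y, y ∈ C ↔ ∃ i : ℕ, 1 ≤ i ∧ i ≤ q ∧ y = i * δ := by
  classical
  have hBc : (insert 0 C).card = q + 1 := by rw [Finset.card_insert_of_notMem h0, hC]
  have hmq : 3 * q + 1 ≤ m := by
    have : 3 * q ≤ (p + 1) * q := Nat.mul_le_mul_right _ (by omega)
    omega
  obtain ⟨a, x, hgen, hAP⟩ : ∃ a x : ZMod m, (∀ y : ZMod m, y ∈ AddSubgroup.zmultiples x) ∧
      insert 0 C = (Finset.range (q + 1)).image (fun i : ℕ => a + i • x) := by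
    rcases Nat.lt_or_ge q 2 with hq2 | hq2
    · have hq1 : q = 1 := by omega
      rw [hq1] at hC
      obtain ⟨d, rfl⟩ := Finset.card_eq_one.1 hC
      have hd0 : d ≠ 0 := by
        intro h
        apply h0
        rw [h]
        exact Finset.mem_singleton_self _
      refine ⟨0, d, ?_, ?_⟩
      · by_contra hcon
        push Not at hcon
        obtain ⟨y, hy⟩ := hcon
        have h1 : (cyc d).card < m := by
          have h2 : cyc d ≠ Finset.univ := by
            intro h
            apply hy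
            rw [← mem_cyc, h]
            exact Finset.mem_univ _
          have h3 := Finset.card_lt_univ_of_notMem (fun h => hy (mem_cyc.1 h))
          rwa [ZMod.card] at h3
        have h2 : 2 ≤ (cyc d).card := by
          have h3 : ({0, d} : Finset (ZMod m)) ⊆ cyc d := by
            intro z hz
            rw [Finset.mem_insert, Finset.mem_singleton] at hz
            rcases hz with rfl | rfl
            · exact (isSub_cyc d).zero
            · exact mem_cyc.2 (AddSubgroup.mem_zmultiples _)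
          have h4 := Finset.card_le_card h3
          rwa [Finset.card_pair (Ne.symm hd0)] at h4
        have h3 := hNQ (cyc d) (isSub_cyc d) h2 h1
        have h4 : insert 0 {d} + cyc d ⊆ cyc d := by
          intro z hz
          obtain ⟨u, hu, v, hv, rfl⟩ := Finset.mem_add.1 hz
          apply (isSub_cyc d).add _ hv
          rw [Finset.mem_insert, Finset.mem_singleton] at hu
          rcases hu with rfl | rfl
          · exact (isSub_cyc d).zero
          · exact mem_cyc.2 (AddSubgroup.mem_zmultiples _)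
        have h5 := Finset.card_le_card h4
        omega
      · rw [hq1]
        ext y
        simp only [Finset.mem_insert, Finset.mem_singleton, Finset.mem_image, Finset.mem_range,
          zero_add]
        constructor
        · rintro (rfl | rfl)
          · exact ⟨0, by omega, by simp⟩
          · exact ⟨1, by omega, by simp⟩
        · rintro ⟨i, hi, rfl⟩
          interval_cases i
          · left; simp
          · right; simp
    · have h1 := vosper (S := insert 0 C) (X := C) (by omega)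
        (fun P hP h2 h3 => hNQ P hP h2 (by rwa [ZMod.card] at h3)) (by omega)
        (by rw [ZMod.card]; omega) (by omega)
      rw [hBc] at h1
      exact h1
  have hxu : IsUnit x := by
    obtain ⟨k, hk⟩ := AddSubgroup.mem_zmultiples_iff.1 (hgen 1)
    rw [zsmul_eq_mul] at hk
    exact IsUnit.of_mul_eq_one (k : ZMod m) (by rw [mul_comm]; exact hk)
  have hmul : ∀ i : ℕ, 1 ≤ i → i < m → ((i : ℕ) : ZMod m) * x ≠ 0 := by
    intro i hi him h
    have h1 : ((i : ℕ) : ZMod m) = 0 := by
      have := hxu.mul_left_eq_zero.1 h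
      exact this
    rw [ZMod.natCast_eq_zero_iff] at h1
    have := Nat.le_of_dvd (by omega) h1
    omega
  have h0m : (0 : ZMod m) ∈ (Finset.range (q + 1)).image (fun i : ℕ => a + i • x) := by
    rw [← hAP]
    exact Finset.mem_insert_self _ _
  obtain ⟨j, hj, hj0⟩ := Finset.mem_image.1 h0m
  rw [Finset.mem_range] at hj
  simp only [nsmul_eq_mul] at hj0
  have ha : a = - ((j : ℕ) * x) := by
    rw [← sub_eq_zero, sub_neg_eq_add]; exact hj0
  have hmemB : ∀ y, y ∈ insert 0 C ↔ ∃ i : ℕ, i ≤ q ∧ y = ((i : ZMod m) - j) * x := by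
    intro y
    rw [hAP, Finset.mem_image]
    constructor
    · rintro ⟨i, hi, rfl⟩
      rw [Finset.mem_range] at hi
      refine ⟨i, by omega, ?_⟩
      rw [nsmul_eq_mul, ha]; ring
    · rintro ⟨i, hi, rfl⟩
      refine ⟨i, by rw [Finset.mem_range]; omega, ?_⟩
      rw [nsmul_eq_mul, ha]; ring
  have hmemC : ∀ y, y ∈ C ↔ y ∈ insert 0 C ∧ y ≠ 0 := by
    intro y
    rw [Finset.mem_insert]
    constructor
    · intro hy
      refine ⟨Or.inr hy, ?_⟩
      rintro rfl
      exact h0 hy
    · rintro ⟨h | h, h'⟩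
      · exact absurd h h'
      · exact h
  have hends : j = 0 ∨ j = q := by
    by_contra hcon
    push Not at hcon
    have hj1 : 1 ≤ j := by omega
    have hj2 : j + 1 ≤ q := by omega
    apply hno
    rw [Finset.mem_add]
    refine ⟨-x, ?_, x, ?_, by ring⟩
    · rw [hmemC, hmemB]
      refine ⟨⟨j - 1, by omega, ?_⟩, ?_⟩
      · rw [Nat.cast_sub hj1]; push_cast; ring
      · rw [neg_ne_zero]
        intro h
        apply hmul 1 le_rfl (by omega)
        rw [h, mul_zero]
    · rw [hmemB]
      refine ⟨j + 1, hj2, ?_⟩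
      push_cast; ring
  rcases hends with rfl | rfl
  · refine ⟨x, hxu, ?_⟩
    intro y
    rw [hmemC, hmemB]
    constructor
    · rintro ⟨⟨i, hi, rfl⟩, hy⟩
      refine ⟨i, ?_, hi, by push_cast; ring⟩
      rcases Nat.eq_zero_or_pos i with rfl | h
      · exfalso; apply hy; push_cast; ring
      · exact h
    · rintro ⟨i, hi1, hi, rfl⟩
      exact ⟨⟨i, hi, by push_cast; ring⟩, hmul i hi1 (by omega)⟩
  · refine ⟨-x, hxu.neg, ?_⟩
    intro y
    rw [hmemC, hmemB]
    constructor
    · rintro ⟨⟨i, hi, rfl⟩, hy⟩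
      refine ⟨j - i, ?_, by omega, ?_⟩
      · rcases Nat.eq_or_lt_of_le hi with rfl | h
        · exfalso; apply hy; ring
        · omega
      · rw [Nat.cast_sub hi]; ring
    · rintro ⟨i, hi1, hi, rfl⟩
      refine ⟨⟨j - i, by omega, by rw [Nat.cast_sub hi]; ring⟩, ?_⟩
      intro h
      apply hmul i hi1 (by omega)
      rw [← neg_eq_zero, ← mul_neg]
      exact h

end quotient

section numbers

/-- the value of `v1` for tame `n` -/
lemma v1_tame {n h : ℕ} (hn : 0 < n) (hh : 2 ≤ h) (ht : Tame n h) : v1 n h = n / h := by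
  apply le_antisymm
  · unfold v1
    apply Finset.sup_le
    intro d hd
    rw [Nat.mem_divisors] at hd
    split_ifs with h1
    · exact Nat.zero_le _
    · rw [Nat.le_div_iff_mul_le (by omega)]
      obtain ⟨e, he⟩ := hd.1
      have hdpos : 0 < d := Nat.pos_of_dvd_of_pos hd.1 hn
      have h2 : n / d = e := by rw [he]; exact Nat.mul_div_cancel_left e hdpos
      rw [h2]
      have h3 : ((d - 2) / h + 1) * h ≤ d := by
        have h4 := Nat.div_add_mod d h
        set c := d / h with hc
        set r := d % h with hr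
        have h5 : r = 0 ∨ r = 1 := ht d hd.1
        have h6 : 1 ≤ c := by
          rcases Nat.eq_zero_or_pos c with h7 | h7
          · rw [h7, mul_zero] at h4; omega
          · exact h7
        have h8 : (d - 2) / h + 1 ≤ c := by
          rw [Nat.succ_le_iff, Nat.div_lt_iff_lt_mul (by omega)]
          rw [mul_comm c h]
          omega
        calc ((d - 2) / h + 1) * h ≤ c * h := Nat.mul_le_mul_right _ h8
          _ ≤ d := by rw [mul_comm]; omega
      calc ((d - 2) / h + 1) * e * h = ((d - 2) / h + 1) * h * e := by ring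
        _ ≤ d * e := Nat.mul_le_mul_right _ h3
        _ = n := he.symm
  · rcases Nat.eq_or_lt_of_le (Nat.succ_le_iff.2 hn) with h1 | h1
    · have h2 : n / h = 0 := Nat.div_eq_of_lt (by omega)
      rw [h2]; exact Nat.zero_le _
    · have h2 := le_v1 (h := h) (by omega : n ≠ 0) (dvd_refl n) (by omega)
      rw [Nat.div_self hn, mul_one] at h2
      refine le_trans ?_ h2
      have h4 := Nat.div_add_mod n h
      have h5 := ht n (dvd_refl n)
      set c := n / h with hc
      set r := n % h with hr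
      have h6 : 1 ≤ c := by
        rcases Nat.eq_zero_or_pos c with h7 | h7
        · rw [h7, mul_zero] at h4; omega
        · exact h7
      have h7 : c - 1 ≤ (n - 2) / h := by
        rw [Nat.le_div_iff_mul_le (by omega)]
        have h8 : (c - 1) * h + h = h * c := by
          obtain ⟨c', hc'⟩ := Nat.exists_eq_add_of_le h6
          rw [hc', Nat.add_sub_cancel_left]; ring
        omega
      omega

end numbers

section emb

/-- the embedding of `ZMod t` in `ZMod n`, `n = m t` -/
noncomputable def emb (m t n : ℕ) (hmt : m * t = n) : ZMod t →+ ZMod n :=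
  ZMod.lift t ⟨(zmultiplesHom (ZMod n)) (m : ZMod n), by
    rw [zmultiplesHom_apply, natCast_zsmul, nsmul_eq_mul, ← Nat.cast_mul, mul_comm, hmt,
      ZMod.natCast_self]⟩

lemma emb_cast {m t n : ℕ} (hmt : m * t = n) (c : ℕ) :
    emb m t n hmt (c : ZMod t) = ((m * c : ℕ) : ZMod n) := by
  have h1 : ((c : ℕ) : ZMod t) = ((c : ℤ) : ZMod t) := by push_cast; rfl
  rw [h1]
  unfold emb
  rw [ZMod.lift_coe, zmultiplesHom_apply, natCast_zsmul, nsmul_eq_mul]
  push_cast
  ring

lemma emb_apply {m t n : ℕ} [NeZero t] (hmt : m * t = n) (y : ZMod t) :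
    emb m t n hmt y = ((m * y.val : ℕ) : ZMod n) := by
  rw [← emb_cast hmt, ZMod.natCast_val, ZMod.cast_id]

lemma emb_inj {m t n : ℕ} [NeZero t] (hm : 0 < m) (hmt : m * t = n) :
    Function.Injective (emb m t n hmt) := by
  rw [injective_iff_map_eq_zero]
  intro y hy
  rw [emb_apply hmt, ZMod.natCast_eq_zero_iff, ← hmt] at hy
  have h1 := Nat.dvd_of_mul_dvd_mul_left hm hy
  have h2 := ZMod.val_lt y
  have h3 := Nat.eq_zero_of_dvd_of_lt h1 h2
  exact (ZMod.val_eq_zero y).1 h3

lemma emb_range {m t n : ℕ} [NeZero n] (hmt : m * t = n) {x : ZMod n}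
    (hx : ZMod.castHom (Dvd.intro t hmt) (ZMod m) x = 0) : ∃ y, emb m t n hmt y = x := by
  rw [ZMod.castHom_apply, ZMod.cast_eq_val, ZMod.natCast_eq_zero_iff] at hx
  obtain ⟨c, hc⟩ := hx
  refine ⟨(c : ZMod t), ?_⟩
  rw [emb_cast hmt, ← hc, ZMod.natCast_val, ZMod.cast_id]

lemma emb_ker {m t n : ℕ} [NeZero t] (hmt : m * t = n) (y : ZMod t) :
    ZMod.castHom (Dvd.intro t hmt) (ZMod m) (emb m t n hmt y) = 0 := by
  rw [emb_apply hmt, map_natCast, ZMod.natCast_eq_zero_iff]
  exact Dvd.intro _ rfl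

end emb

/-- (P9) the quasi-periodic case -/
theorem quasi_case (n h k ε : ℕ) [NeZero n] (hh : 3 ≤ h) (ht : Tame n h) (hn : n = h * k + ε)
    (hε : ε ≤ 1) {A : Finset (ZMod n)} (hk : A.card = k) (hA : ns A h ≠ Finset.univ)
    (hper : (stab (ns A h)).card ≤ 1)
    (hP : ∃ P : Finset (ZMod n), IsSub P ∧ 2 ≤ P.card ∧ P.card < n ∧
      (A + P).card < A.card + P.card) :
    ∃ (m t q : ℕ) (hmt : m * t = n) (δ : ZMod m) (g : ZMod n) (B : Finset (ZMod t)),
      2 ≤ m ∧ h * q < m ∧ IsUnit δ ∧ B.card = v1 t h ∧ (∃ x : ZMod t, x ∉ ns B h) ∧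
      ∀ x, x ∈ A ↔ (∃ i : ℕ, 1 ≤ i ∧ i ≤ q ∧
        ZMod.castHom (Dvd.intro t hmt) (ZMod m) (x - g) = i * δ) ∨
        ∃ y ∈ B, x = g + ((m * y.val : ℕ) : ZMod n) := by
  classical
  obtain ⟨p, rfl⟩ : ∃ p, h = p + 1 := ⟨h - 1, by omega⟩
  have hnpos : 0 < n := NeZero.pos n
  -- a subgroup of maximal size
  obtain ⟨K, hKm, hmax⟩ : ∃ K ∈ (Finset.univ.filter (fun P : Finset (ZMod n) => IsSub P ∧
      2 ≤ P.card ∧ P.card < n ∧ (A + P).card < A.card + P.card)), ∀ P ∈ (Finset.univ.filter
      (fun P : Finset (ZMod n) => IsSub P ∧ 2 ≤ P.card ∧ P.card < n ∧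
        (A + P).card < A.card + P.card)), P.card ≤ K.card := by
    apply Finset.exists_max_image
    obtain ⟨P, h1⟩ := hP
    exact ⟨P, Finset.mem_filter.2 ⟨Finset.mem_univ _, h1⟩⟩
  obtain ⟨-, hK, hK2, hKn, hKlt⟩ := Finset.mem_filter.1 hKm
  have hkpos : 1 ≤ k := by
    rcases Nat.eq_zero_or_pos k with h0 | h0
    · rw [h0, mul_zero] at hn; omega
    · exact h0
  have hne : A.Nonempty := by rw [← Finset.card_pos, hk]; exact hkpos
  have hnd : n / (p + 1) = k ∧ n % (p + 1) = ε := by
    rw [hn]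
    constructor
    · rw [Nat.mul_add_div (by omega), Nat.div_eq_of_lt (by omega), add_zero]
    · rw [Nat.mul_add_mod, Nat.mod_eq_of_lt (by omega)]
  have hv : v1 n (p + 1) = k := by rw [v1_tame hnpos (by omega) ht, hnd.1]
  have hext : ∀ B : Finset (ZMod n), A.card < B.card → ns B (p + 1) = Finset.univ := by
    intro B hB
    by_contra hcon
    have := card_le_v1 n hcon
    omega
  obtain ⟨a₀, ha₀, hA₀ne, h0W⟩ := quasi_data (by omega : 1 ≤ p) hne hA hper hext hK hK2 hKlt
  set A₁ := tr A (-a₀) with hA₁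
  set A₀ := A₁.filter (fun y => y ∈ K) with hA₀
  set B₁ := A₁.filter (fun y => y ∉ K) with hB₁
  have hA₁c : A₁.card = A.card := card_tr _ _
  have h0A₁ : (0 : ZMod n) ∈ A₁ := by
    rw [hA₁, mem_tr]
    simpa using ha₀
  have hcard : A₀.card + B₁.card = k := by
    rw [hA₀, hB₁, ← hk, ← hA₁c]
    exact Finset.card_filter_add_card_filter_not (s := A₁) (fun y => y ∈ K)
  have hBb := B_bound (B₁ := B₁) hK h0A₁ (Finset.filter_subset _ _) h0W
  rw [ZMod.card] at hBb
  -- the quotient and the subgroup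
  obtain ⟨m, hmn, hKm', hker⟩ := sub_eq_ker n hK
  have hmt : m * K.card = n := by rw [mul_comm]; exact hKm'
  set t := K.card with htK
  have htpos : 0 < t := by omega
  have hmpos : 0 < m := Nat.pos_of_dvd_of_pos hmn hnpos
  have : NeZero t := ⟨htpos.ne'⟩
  have : NeZero m := ⟨hmpos.ne'⟩
  have htn : t ∣ n := Dvd.intro_left m hmt
  set f : ZMod n →+ ZMod m := (ZMod.castHom hmn (ZMod m)).toAddMonoidHom with hf
  have hfs : Function.Surjective f := ZMod.castHom_surjective hmn
  have hfk : ∀ x, x ∈ K ↔ f x = 0 := hker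
  set ι := emb m t n hmt with hι
  have hιi : Function.Injective ι := emb_inj hmpos hmt
  have hιK : ∀ y, ι y ∈ K := by
    intro y
    rw [hfk]
    exact emb_ker hmt y
  have hKι : ∀ x ∈ K, ∃ y, ι y = x := by
    intro x hx
    exact emb_range hmt ((hfk x).1 hx)
  set B : Finset (ZMod t) := Finset.univ.filter (fun y => ι y ∈ A₀) with hB
  have hBim : B.image ι = A₀ := by
    ext x
    rw [Finset.mem_image]
    constructor
    · rintro ⟨y, hy, rfl⟩
      exact (Finset.mem_filter.1 hy).2
    · intro hx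
      obtain ⟨y, rfl⟩ := hKι x (Finset.mem_filter.1 hx).2
      exact ⟨y, Finset.mem_filter.2 ⟨Finset.mem_univ _, hx⟩, rfl⟩
  have hBc : B.card = A₀.card := by
    rw [← hBim, Finset.card_image_of_injective _ hιi]
  have hBne : ns B (p + 1) ≠ Finset.univ := by
    intro hcon
    apply hA₀ne
    rw [← hBim, ← image_ns, hcon]
    ext x
    rw [Finset.mem_image]
    constructor
    · rintro ⟨y, -, rfl⟩
      exact hιK y
    · intro hx
      obtain ⟨y, rfl⟩ := hKι x hx
      exact ⟨y, Finset.mem_univ _, rfl⟩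
  have httame : Tame t (p + 1) := fun e he => ht e (he.trans htn)
  have hvt : v1 t (p + 1) = t / (p + 1) := v1_tame htpos (by omega) httame
  have hBle := card_le_v1 t hBne
  rw [hvt, hBc] at hBle
  have htm := Nat.div_add_mod t (p + 1)
  -- numbers
  have e1 : (p + 1) * A₀.card ≤ (p + 1) * (t / (p + 1)) := Nat.mul_le_mul_left _ hBle
  have e2 : (p + 1) * A₀.card + (p + 1) * B₁.card = (p + 1) * k := by
    rw [← mul_add, hcard]
  have hteps : ε ≤ t % (p + 1) := by
    rcases Nat.eq_zero_or_pos (t % (p + 1)) with h0 | h0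
    · have h1 : (p + 1) ∣ n := (Nat.dvd_of_mod_eq_zero h0).trans htn
      have h2 := Nat.mod_eq_zero_of_dvd h1
      omega
    · omega
  have hA₀v : (p + 1) * A₀.card = (p + 1) * (t / (p + 1)) := by omega
  have hA₀c : A₀.card = t / (p + 1) := Nat.eq_of_mul_eq_mul_left (by omega) hA₀v
  have hBeq : (p + 1) * B₁.card + t = n := by omega
  have hB₁ne : B₁.Nonempty := by
    rw [← Finset.card_pos]
    rcases Nat.eq_zero_or_pos B₁.card with h0 | h0
    · rw [h0, mul_zero] at hBeq; omega
    · exact h0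
  obtain ⟨hBK, hXY⟩ := B_eq (B₁ := B₁) (by omega : 1 ≤ p) hK h0A₁ (Finset.filter_subset _ _) hB₁ne h0W
    (by rw [ZMod.card]; exact hBeq)
  -- the quotient
  have hcpre : ∀ D : Finset (ZMod m), (pre f D).card = D.card * t := by
    intro D
    have h1 := card_pre hfs D
    rw [ZMod.card, ZMod.card] at h1
    have h2 : (pre f D).card * m = (D.card * t) * m := by
      rw [h1, mul_assoc, mul_comm t m, hmt]
    exact Nat.eq_of_mul_eq_mul_right hmpos h2
  set C := B₁.image f with hC
  have hBpre : pre f C = B₁ := by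
    ext x
    rw [mem_pre, hC, Finset.mem_image]
    constructor
    · rintro ⟨b, hb, hbx⟩
      rw [← hBK]
      refine Finset.mem_add.2 ⟨b, hb, x - b, ?_, by abel⟩
      rw [hfk, map_sub, hbx, sub_self]
    · intro hx
      exact ⟨x, hx, rfl⟩
  set q := C.card with hq
  have hBq : B₁.card = q * t := by rw [← hBpre, hcpre]
  have hmq : m = (p + 1) * q + 1 := by
    have h1 : ((p + 1) * q + 1) * t = m * t := by
      rw [hmt, ← hBeq, hBq]; ring
    exact (Nat.eq_of_mul_eq_mul_right htpos h1).symm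
  have hqpos : 1 ≤ q := by
    rw [Nat.succ_le_iff, hq, Finset.card_pos, hC]
    exact hB₁ne.image f
  have h0C : (0 : ZMod m) ∉ C := by
    intro hcon
    rw [hC, Finset.mem_image] at hcon
    obtain ⟨b, hb, hb0⟩ := hcon
    exact (Finset.mem_filter.1 hb).2 ((hfk b).2 hb0)
  have hA₁im : A₁.image f = insert 0 C := by
    ext y
    rw [Finset.mem_insert, hC, Finset.mem_image, Finset.mem_image]
    constructor
    · rintro ⟨a, ha, rfl⟩
      by_cases haK : a ∈ K
      · left; exact (hfk a).1 haK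
      · right; exact ⟨a, Finset.mem_filter.2 ⟨ha, haK⟩, rfl⟩
    · rintro (rfl | ⟨b, hb, rfl⟩)
      · exact ⟨0, h0A₁, map_zero f⟩
      · exact ⟨b, (Finset.mem_filter.1 hb).1, rfl⟩
  have hA₀pos : 1 ≤ A₀.card := by
    rw [Nat.succ_le_iff, Finset.card_pos]
    exact ⟨0, Finset.mem_filter.2 ⟨h0A₁, hK.zero⟩⟩
  have hCc : (insert 0 C).card = q + 1 := by rw [Finset.card_insert_of_notMem h0C]
  have hNQ : ∀ P : Finset (ZMod m), IsSub P → 2 ≤ P.card → P.card < m →
      (insert 0 C).card + P.card ≤ (insert 0 C + P).card := by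
    intro P hP hP2 hPm
    have hPs : IsSub (pre f P) := by
      refine ⟨?_, ?_, ?_⟩
      · rw [mem_pre, map_zero]; exact hP.zero
      · intro a b ha hb
        rw [mem_pre] at ha hb ⊢
        rw [map_add]; exact hP.add ha hb
      · intro a ha
        rw [mem_pre] at ha ⊢
        rw [map_neg]; exact hP.neg ha
    have hPc := hcpre P
    have h1 : t < (pre f P).card := by
      rw [hPc]
      calc t < 2 * t := by omega
        _ ≤ P.card * t := Nat.mul_le_mul_right _ hP2
    have h2 : (pre f P).card < n := by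
      rw [hPc, ← hmt]
      exact Nat.mul_lt_mul_of_pos_right hPm htpos
    have h3 : A.card + (pre f P).card ≤ (A + pre f P).card := by
      by_contra hcon
      push Not at hcon
      have h4 := hmax (pre f P) (Finset.mem_filter.2 ⟨Finset.mem_univ _, hPs, by omega, h2, hcon⟩)
      omega
    have h4 : (A + pre f P).card = (A₁ + pre f P).card := by
      rw [hA₁, tr_add, card_tr]
    have h5 : A₁ + pre f P ⊆ pre f (insert 0 C + P) := by
      intro z hz
      obtain ⟨u, hu, v, hv', rfl⟩ := Finset.mem_add.1 hz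
      rw [mem_pre] at hv' ⊢
      rw [map_add]
      apply Finset.add_mem_add _ hv'
      rw [← hA₁im]
      exact Finset.mem_image_of_mem f hu
    have h6 := Finset.card_le_card h5
    rw [hcpre] at h6
    rw [h4, hk, ← hcard, hBq, hPc] at h3
    have h7 : (q + P.card) * t < (insert 0 C + P).card * t := by
      have : (q + P.card) * t = q * t + P.card * t := by ring
      omega
    have h8 := Nat.lt_of_mul_lt_mul_right h7
    omega
  have hsum : (C + insert 0 C).card ≤ 2 * q := by
    have h1 : pre f (C + insert 0 C) ⊆ (B₁ + K) + (A₁ + K) := by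
      intro z hz
      rw [mem_pre] at hz
      obtain ⟨c, hc, d, hd, hcd⟩ := Finset.mem_add.1 hz
      rw [hC, Finset.mem_image] at hc
      rw [← hA₁im, Finset.mem_image] at hd
      obtain ⟨b, hb, rfl⟩ := hc
      obtain ⟨a, ha, rfl⟩ := hd
      refine Finset.mem_add.2 ⟨b + 0, Finset.add_mem_add hb hK.zero, a + (z - b - a),
        Finset.add_mem_add ha ?_, by abel⟩
      rw [hfk, map_sub, map_sub, ← hcd]
      abel
    have h2 := Finset.card_le_card h1
    rw [hcpre] at h2
    have h3 : (C + insert 0 C).card * t ≤ (2 * q) * t := by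
      calc (C + insert 0 C).card * t ≤ 2 * B₁.card := h2.trans hXY
        _ = (2 * q) * t := by rw [hBq]; ring
    exact Nat.le_of_mul_le_mul_right h3 htpos
  have hno : (0 : ZMod m) ∉ C + insert 0 C := by
    intro hcon
    obtain ⟨c, hc, d, hd, hcd⟩ := Finset.mem_add.1 hcon
    rw [hC, Finset.mem_image] at hc
    rw [← hA₁im, Finset.mem_image] at hd
    obtain ⟨b, hb, rfl⟩ := hc
    obtain ⟨a, ha, rfl⟩ := hd
    apply h0W
    refine Finset.mem_add.2 ⟨b + -(b + a), Finset.add_mem_add hb (hK.neg ?_), a, ?_, by abel⟩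
    · rw [hfk, map_add, hcd]
    · obtain ⟨r, rfl⟩ : ∃ r, p = r + 1 := ⟨p - 1, by omega⟩
      rw [ns_succ]
      refine Finset.mem_add.2 ⟨0, ?_, a, subset_add_sub hK _ ha, by abel⟩
      rw [mem_ns_iff]
      exact ⟨fun _ => 0, fun _ => subset_add_sub hK _ h0A₁, by simp⟩
  obtain ⟨δ, hδ, hCδ⟩ := quot_ap (by omega : 2 ≤ p) hmq hqpos hq.symm h0C hNQ hsum hno
  refine ⟨m, t, q, hmt, δ, a₀, B, ?_, by omega, hδ, ?_, ?_, ?_⟩
  · have : (p + 1) * 1 ≤ (p + 1) * q := Nat.mul_le_mul_left _ hqpos
    omega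
  · rw [hvt, hBc, hA₀c]
  · by_contra hcon
    push Not at hcon
    exact hBne (Finset.eq_univ_iff_forall.2 hcon)
  · intro x
    have h1 : x ∈ A ↔ x - a₀ ∈ A₁ := by
      rw [hA₁, mem_tr, sub_neg_eq_add, sub_add_cancel]
    have h2 : x - a₀ ∈ A₁ ↔ x - a₀ ∈ B₁ ∨ x - a₀ ∈ A₀ := by
      rw [hB₁, hA₀, Finset.mem_filter, Finset.mem_filter]
      tauto
    have h3 : x - a₀ ∈ B₁ ↔ f (x - a₀) ∈ C := by
      rw [← mem_pre, hBpre]
    have h4 : x - a₀ ∈ A₀ ↔ ∃ y ∈ B, x = a₀ + ((m * y.val : ℕ) : ZMod n) := by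
      rw [← hBim, Finset.mem_image]
      constructor
      · rintro ⟨y, hy, hyx⟩
        refine ⟨y, hy, ?_⟩
        rw [← emb_apply hmt, ← hι, hyx]
        abel
      · rintro ⟨y, hy, hyx⟩
        refine ⟨y, hy, ?_⟩
        rw [hι, emb_apply hmt, hyx]
        abel
    rw [h1, h2, h3, hCδ, h4]
    rfl

end Pool.Agent.Helper61.FF
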